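import Pool.Agent.Hhelper65.SphereLimits

/-!
# Every nonempty closed set of the sphere is the image of a pointwise limit of homeomorphisms

`Sph n` is the unit sphere of Euclidean space of dimension `n`.  `LimitMap H h`: the homeomorphisms
`H 0, H 1, H 2, ...` of `Sph n` converge at every point of `Sph n`, and `h` is the limit map.
-/

set_option autoImplicit false
open Filter Topology

namespace Pool.Agent.Results.MP_1a07a1_gt.LimitImage

/-- the unit sphere in `ℝⁿ` (with the subspace topology) -/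
abbrev Sph (n : ℕ) : Type := ↥(Metric.sphere (0 : EuclideanSpace ℝ (Fin n)) (1 : ℝ))

/-- `h` is the pointwise limit of the homeomorphisms `H k` of the sphere onto itself -/
def LimitMap {n : ℕ} (H : ℕ → (Sph n ≃ₜ Sph n)) (h : Sph n → Sph n) : Prop :=
  ∀ p : Sph n, Tendsto (fun k : ℕ => H k p) atTop (𝓝 (h p))

lemma aux (n : ℕ) (hn : 2 ≤ n) (C : Set (Sph n)) (hC : IsClosed C) (hCne : C.Nonempty) :
    ∃ H : ℕ → (Sph n ≃ₜ Sph n),
      (∀ p : Sph n, ∃ q ∈ C, Tendsto (fun k : ℕ => H k p) atTop (𝓝 q)) ∧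
      (∀ q ∈ C, ∃ p : Sph n, Tendsto (fun k : ℕ => H k p) atTop (𝓝 q)) := by
  obtain ⟨c0, hc0⟩ := hCne
  have hv : ‖(c0 : EuclideanSpace ℝ (Fin n))‖ = 1 := by simp
  have hv0 : (c0 : EuclideanSpace ℝ (Fin n)) ≠ 0 := by
    intro h
    rw [h, norm_zero] at hv
    exact zero_ne_one hv
  let Ψ := onePointHyperplaneHomeoUnitSphere hv
  have hΨ : Ψ OnePoint.infty = c0 := by
    apply Subtype.ext
    rfl
  obtain ⟨m, rfl⟩ : ∃ m, n = m + 1 := ⟨n - 1, by omega⟩
  have : Fact (Module.finrank ℝ (EuclideanSpace ℝ (Fin (m + 1))) = m + 1) := ⟨by simp⟩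
  have hfin : Module.finrank ℝ (Submodule.span ℝ {(c0 : EuclideanSpace ℝ (Fin (m + 1)))})ᗮ = m :=
    Submodule.finrank_orthogonal_span_singleton hv0
  rcases Nat.lt_or_ge m 2 with hm | hm
  · have hm1 : m = 1 := by omega
    subst hm1
    have e : ℝ ≃L[ℝ] (Submodule.span ℝ {(c0 : EuclideanSpace ℝ (Fin (1 + 1)))})ᗮ :=
      (FiniteDimensional.nonempty_continuousLinearEquiv_of_finrank_eq (by rw [hfin]; simp)).some
    let Θ : OnePoint ℝ ≃ₜ _ := e.toHomeomorph.onePointCongr.trans Ψ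
    have hΘ : Θ OnePoint.infty = c0 := hΨ
    exact Pool.Agent.Hhelper65.SphereLimits.main_real Θ C hC (by rw [hΘ]; exact hc0)
  · obtain ⟨j, rfl⟩ : ∃ j, m = j + 2 := ⟨m - 2, by omega⟩
    have e : (ℝ × EuclideanSpace ℝ (Fin (j + 1))) ≃L[ℝ]
        (Submodule.span ℝ {(c0 : EuclideanSpace ℝ (Fin (j + 2 + 1)))})ᗮ :=
      (FiniteDimensional.nonempty_continuousLinearEquiv_of_finrank_eq (by
        rw [hfin, Module.finrank_prod]; simp; omega)).some
    let Θ : OnePoint (ℝ × EuclideanSpace ℝ (Fin (j + 1))) ≃ₜ _ :=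
      e.toHomeomorph.onePointCongr.trans Ψ
    have hΘ : Θ OnePoint.infty = c0 := hΨ
    exact Pool.Agent.Hhelper65.SphereLimits.main_prod Θ C hC (by rw [hΘ]; exact hc0)

/-- For every `n ≥ 2` and every nonempty closed subset `C` of the unit sphere of `ℝⁿ` there are
homeomorphisms `H k` of the sphere onto itself which converge at every point, and the image of the
limit map is exactly `C`. -/
theorem result (n : ℕ) (hn : 2 ≤ n) (C : Set (Sph n)) (hC : IsClosed C) (hne : C.Nonempty) :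
    ∃ (H : ℕ → (Sph n ≃ₜ Sph n)) (h : Sph n → Sph n), LimitMap H h ∧ Set.range h = C := by
  obtain ⟨H, h1, h2⟩ := aux n hn C hC hne
  choose h hhC hh using h1
  refine ⟨H, h, hh, ?_⟩
  apply Set.Subset.antisymm
  · rintro _ ⟨p, rfl⟩
    exact hhC p
  · intro q hq
    obtain ⟨p, hp⟩ := h2 q hq
    exact ⟨p, tendsto_nhds_unique (hh p) hp⟩

end Pool.Agent.Results.MP_1a07a1_gt.LimitImage
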